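import Pool.Agent.MP_670f9a_nt.H13.Spec

/-! Inverse roots and coefficients. -/

namespace Pool.Agent.MP_670f9a_nt.H97

open Polynomial Pool.Agent.MP_670f9a_nt.H13

theorem lin_zero : lin 0 = 1 := by simp [lin]

theorem lin_cons (a : ℂ) (s : Multiset ℂ) : lin (a ::ₘ s) = (1 - C a * X) * lin s := by
  simp [lin]

theorem lin_coeff_zero (s : Multiset ℂ) : (lin s).coeff 0 = 1 := by
  induction s using Multiset.induction_on with
  | empty => simp [lin_zero]
  | cons a s ih => simp [lin_cons, ih]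

theorem lin_coeff_succ (a : ℂ) (s : Multiset ℂ) (j : ℕ) :
    (lin (a ::ₘ s)).coeff (j + 1) = (lin s).coeff (j + 1) - a * (lin s).coeff j := by
  rw [lin_cons, sub_mul, one_mul, coeff_sub, mul_assoc, coeff_C_mul, coeff_X_mul]

theorem lin_natDegree (s : Multiset ℂ) : (lin s).natDegree ≤ s.card := by
  induction s using Multiset.induction_on with
  | empty => simp [lin_zero]
  | cons a s ih =>
    rw [lin_cons, Multiset.card_cons]
    have h : (1 - C a * X : ℂ[X]).natDegree ≤ 1 := by compute_degree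
    exact natDegree_mul_le.trans (by omega)

theorem exists_lin : ∀ (d : ℕ) (H : ℂ[X]), H.coeff 0 = 1 → H.natDegree ≤ d →
    ∃ s : Multiset ℂ, s.card = d ∧ H = lin s := by
  intro d
  induction d with
  | zero =>
    intro H h0 hd
    exact ⟨0, rfl, by rw [lin_zero, eq_C_of_natDegree_le_zero hd, h0, C_1]⟩
  | succ d ih =>
    intro H h0 hd
    by_cases h : H.natDegree ≤ d
    · obtain ⟨s, hs, e⟩ := ih H h0 h
      exact ⟨0 ::ₘ s, by simp [hs], by simp [lin_cons, e]⟩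
    · have hH : H ≠ 0 := fun e => by simp [e] at h0
      obtain ⟨r, hr⟩ := IsAlgClosed.exists_root H (fun e => h (by
        rw [natDegree_eq_of_degree_eq_some (n := 0) e]; omega))
      obtain ⟨Q, hQ⟩ := dvd_iff_isRoot.2 hr
      have hQ0 : Q ≠ 0 := fun e => hH (by simp [hQ, e])
      have h1 : -r * Q.coeff 0 = 1 := by simpa [hQ] using h0
      have hr0 : r ≠ 0 := fun e => by simp [e] at h1
      have h2 : H.natDegree = 1 + Q.natDegree := by
        rw [hQ, natDegree_mul (X_sub_C_ne_zero r) hQ0, natDegree_X_sub_C]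
      obtain ⟨s, hs, e⟩ := ih (C (-r) * Q) (by simpa using h1)
        ((natDegree_C_mul_le _ _).trans (by omega))
      refine ⟨r⁻¹ ::ₘ s, by simp [hs], ?_⟩
      have h3 : (C r⁻¹ : ℂ[X]) * C r = 1 := by rw [← C_mul, inv_mul_cancel₀ hr0, C_1]
      rw [lin_cons, ← e, hQ, C_neg]
      linear_combination (-(X * Q)) * h3

theorem lin_eval (s : Multiset ℂ) (z : ℂ) : (lin s).eval z = 0 ↔ ∃ w ∈ s, w * z = 1 := by
  induction s using Multiset.induction_on with
  | empty => simp [lin_zero]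
  | cons a s ih =>
    simp only [lin_cons, eval_mul, mul_eq_zero, ih, Multiset.mem_cons, exists_eq_or_imp, eval_sub,
      eval_one, eval_C, eval_X, sub_eq_zero, eq_comm (a := (1 : ℂ))]

theorem lin_coeff_le (s : Multiset ℂ) (ρ : ℝ) (hρ : 0 ≤ ρ) : ∀ j : ℕ, (∀ w ∈ s, ‖w‖ ≤ ρ) →
    ‖(lin s).coeff j‖ ≤ (s.card * ρ) ^ j := by
  induction s using Multiset.induction_on with
  | empty =>
    intro j _
    rcases j with _ | j
    · simp [lin_zero]
    · simp [lin_zero, coeff_one]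
  | cons a s ih =>
    intro j h
    rcases j with _ | j
    · simp [lin_coeff_zero]
    have h1 := ih (j + 1) fun w hw => h w (Multiset.mem_cons_of_mem hw)
    have h2 := ih j fun w hw => h w (Multiset.mem_cons_of_mem hw)
    have h3 := h a (Multiset.mem_cons_self a s)
    have h4 : ((s.card : ℝ) * ρ) ^ j ≤ (((s.card : ℝ) + 1) * ρ) ^ j := by
      gcongr; linarith
    rw [lin_coeff_succ, Multiset.card_cons]
    push_cast
    calc ‖(lin s).coeff (j + 1) - a * (lin s).coeff j‖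
        ≤ ‖(lin s).coeff (j + 1)‖ + ‖a‖ * ‖(lin s).coeff j‖ := by
          rw [← norm_mul]; exact norm_sub_le _ _
      _ ≤ ((s.card : ℝ) * ρ) ^ (j + 1) + ρ * ((s.card : ℝ) * ρ) ^ j := by gcongr
      _ = ((s.card : ℝ) * ρ) ^ j * (((s.card : ℝ) + 1) * ρ) := by ring
      _ ≤ (((s.card : ℝ) + 1) * ρ) ^ j * (((s.card : ℝ) + 1) * ρ) := by gcongr
      _ = (((s.card : ℝ) + 1) * ρ) ^ (j + 1) := by ring

theorem half_sum (n : ℕ) : ∑ j ∈ Finset.range n, (1 / 2 : ℝ) ^ (j + 1) = 1 - (1 / 2) ^ n := by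
  induction n with
  | zero => simp
  | succ n ih => rw [Finset.sum_range_succ, ih]; ring

theorem root_le (s : Multiset ℂ) (B : ℝ) (hB : 0 ≤ B)
    (h : ∀ j, 1 ≤ j → j ≤ s.card → ‖(lin s).coeff j‖ ≤ B ^ j) : ∀ w ∈ s, ‖w‖ ≤ 2 * B := by
  intro w hw
  by_contra hlt
  rw [not_le] at hlt
  have hw0 : 0 < ‖w‖ := by linarith
  have h0 : (lin s).eval w⁻¹ = 0 :=
    (lin_eval s _).2 ⟨w, hw, mul_inv_cancel₀ (norm_pos_iff.1 hw0)⟩
  rw [eval_eq_sum_range' (Nat.lt_succ_of_le (lin_natDegree s)), Finset.sum_range_succ',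
    lin_coeff_zero, pow_zero, mul_one] at h0
  have h1 : ‖∑ j ∈ Finset.range s.card, (lin s).coeff (j + 1) * w⁻¹ ^ (j + 1)‖ = 1 := by
    rw [eq_neg_of_add_eq_zero_left h0]; simp
  have h2 : B * ‖w‖⁻¹ ≤ 1 / 2 := by
    rw [← div_eq_mul_inv, div_le_iff₀ hw0]; linarith
  have h3 : ∑ j ∈ Finset.range s.card, ‖(lin s).coeff (j + 1) * w⁻¹ ^ (j + 1)‖ ≤
      ∑ j ∈ Finset.range s.card, (1 / 2 : ℝ) ^ (j + 1) := by
    refine Finset.sum_le_sum fun j hj => ?_
    have h4 := h (j + 1) (by omega) (Finset.mem_range.1 hj)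
    rw [norm_mul, norm_pow, norm_inv]
    calc ‖(lin s).coeff (j + 1)‖ * ‖w‖⁻¹ ^ (j + 1) ≤ B ^ (j + 1) * ‖w‖⁻¹ ^ (j + 1) := by gcongr
      _ = (B * ‖w‖⁻¹) ^ (j + 1) := by rw [mul_pow]
      _ ≤ (1 / 2 : ℝ) ^ (j + 1) := by gcongr
  have h5 := (norm_sum_le _ _).trans h3
  rw [h1, half_sum] at h5
  have h6 : (0 : ℝ) < (1 / 2) ^ s.card := by positivity
  linarith

theorem slin : SLin :=
  ⟨fun H d => exists_lin d H, fun s => ⟨lin_coeff_zero s, lin_natDegree s⟩, lin_eval,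
    fun s ρ j hρ => lin_coeff_le s ρ hρ j, root_le⟩

end Pool.Agent.MP_670f9a_nt.H97
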